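import Pool.Agent.H240Z.PcfMain

namespace Pool.Agent.Results.MP_242061_lc.ANotComputable

open Pool.Agent.H240Z.Pcf

/-- For every term `t` of Platek's calculus with free variables for `Ω_b` and Kleene's
quantifier there is a closed subset `X` of Cantor space such that the value of `Ω_C` at the
characteristic function of `X` is not below the value of `t` there; so `Ω_C` is not below the
interpretation of `t` in the pointwise information order. -/
theorem result : ∀ t : Tm [ty3, ty2] ty3, ∃ X : Set (ℕ → Bool), IsClosed X ∧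
    ¬ toF omegaC (chi X) ≤ toF (denB t) (chi X) := by
  intro t
  by_contra hcon
  refine not_computable ⟨t, fun X hX => ?_⟩
  have h1 : toF omegaC (chi X) ≤ toF (denB t) (chi X) := by
    by_contra h
    exact hcon ⟨X, hX, h⟩
  have h2 : IsChar (chi X) X := by
    intro g
    have h3 : ∃ f, Vals (liftN (bits g)) f := ⟨bits g, fun n => Part.mem_map _ (Part.mem_some n)⟩
    have h4 : Classical.choose h3 = bits g :=
      (Classical.choose_spec h3).unique fun n => Part.mem_map _ (Part.mem_some n)
    refine ⟨h3, ?_⟩
    change ind (∃ g' ∈ X, bits g' = Classical.choose h3) = ind (g ∈ X)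
    rw [h4]
    congr 1
    refine propext ⟨fun ⟨g', h5, h6⟩ => ?_, fun h => ⟨g, h, rfl⟩⟩
    rw [(bits_eq_iff.1 h6).2, ← (bits_eq_iff.1 (rfl : bits g = bits g)).2] at h5
    exact h5
  have h3 : ∃ Z, Z ∈ {Z : Set (ℕ → Bool) | IsClosed Z} ∧ IsChar (chi X) Z := ⟨X, hX, h2⟩
  refine h1 _ ⟨h3, ?_⟩
  exact congrArg (fun Z : Set (ℕ → Bool) => ind Z.Nonempty) ((Classical.choose_spec h3).2.unique h2)

end Pool.Agent.Results.MP_242061_lc.ANotComputable
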